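import Pool.Agent.Helper119.MD.Defs

open Finset

namespace Pool.Agent.Helper119.MD

/-- A design whose blocks satisfy the hyperplane exchange property. -/
structure HD {α : Type*} [Fintype α] [DecidableEq α] (Bl : Finset (Finset α)) (r k lam : ℕ) :
    Prop where
  hk : ∀ B ∈ Bl, B.card = k
  hr : ∀ x, (Bl.filter (fun B => x ∈ B)).card = r
  hl : ∀ x y, x ≠ y → (Bl.filter (fun B => x ∈ B ∧ y ∈ B)).card = lam
  ex : ∀ B₁ ∈ Bl, ∀ B₂ ∈ Bl, B₁ ≠ B₂ → ∀ z, z ∉ B₁ → z ∉ B₂ → ∃ B ∈ Bl, z ∈ B ∧ B₁ ∩ B₂ ⊆ B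
  pr : ∀ B ∈ Bl, B ≠ Finset.univ

section
variable {α : Type*} [Fintype α] [DecidableEq α] {Bl : Finset (Finset α)} {r k lam : ℕ}

theorem HD.count1 (h : HD Bl r k lam) : Fintype.card α * r = Bl.card * k := by
  have e1 : ∑ x : α, (Bl.filter (fun B => x ∈ B)).card = Fintype.card α * r := by
    rw [Finset.sum_congr rfl (fun x _ => h.hr x)]
    simp
  have e2 : ∑ B ∈ Bl, B.card = Bl.card * k := by
    rw [Finset.sum_congr rfl (fun B hB => h.hk B hB)]
    simp
  rw [← e1, ← e2]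
  simp only [Finset.card_eq_sum_ones, Finset.sum_filter]
  rw [Finset.sum_comm]
  apply Finset.sum_congr rfl
  intro B _
  simp

theorem HD.count2 (h : HD Bl r k lam) (x : α) :
    lam * (Fintype.card α - 1) = r * (k - 1) := by
  have e1 : ∑ y ∈ Finset.univ.erase x, (Bl.filter (fun B => x ∈ B ∧ y ∈ B)).card =
      lam * (Fintype.card α - 1) := by
    rw [Finset.sum_congr rfl (fun y hy => h.hl x y (Finset.ne_of_mem_erase hy).symm)]
    rw [Finset.sum_const, Finset.card_erase_of_mem (Finset.mem_univ x), Finset.card_univ,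
      smul_eq_mul, mul_comm]
  have e2 : ∑ B ∈ Bl.filter (fun B => x ∈ B), (B.erase x).card = r * (k - 1) := by
    have hc : ∀ B ∈ Bl.filter (fun B => x ∈ B), (B.erase x).card = k - 1 := by
      intro B hB
      rw [Finset.mem_filter] at hB
      rw [Finset.card_erase_of_mem hB.2, h.hk B hB.1]
    rw [Finset.sum_congr rfl hc, Finset.sum_const, h.hr x, smul_eq_mul]
  rw [← e1, ← e2]
  simp only [Finset.card_eq_sum_ones, Finset.sum_filter]
  rw [Finset.sum_comm]
  apply Finset.sum_congr rfl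
  intro B _
  by_cases hx : x ∈ B
  · simp only [hx, true_and, if_true]
    rw [← Finset.sum_filter]
    congr 1
    ext y
    simp [and_comm]
  · simp [hx]

/-- The pencil lemma. -/
theorem HD.pencil (h : HD Bl r k lam) (hlam : 2 ≤ lam) {x y : α} (hxy : x ≠ y) :
    ∃ (F : Finset α) (T : Finset (Finset α)), T ⊆ Bl.filter (fun B => x ∈ B ∧ y ∈ B) ∧
      2 ≤ T.card ∧ x ∈ F ∧ y ∈ F ∧ (∀ B ∈ T, F ⊆ B) ∧
      (∀ B ∈ T, ∀ B' ∈ T, B ≠ B' → B ∩ B' = F) ∧ (∀ z, ∃ B ∈ T, z ∈ B) ∧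
      (∀ B ∈ Bl.filter (fun B => x ∈ B ∧ y ∈ B), F ⊆ B → B ∈ T) ∧ F.card < k ∧
      Fintype.card α = F.card + T.card * (k - F.card) ∧
      (∀ B ∈ Bl.filter (fun B => x ∈ B ∧ y ∈ B), ∀ B' ∈ Bl.filter (fun B => x ∈ B ∧ y ∈ B),
        B ≠ B' → (B ∩ B').card ≤ F.card) := by
  set L := Bl.filter (fun B => x ∈ B ∧ y ∈ B) with hL
  have hLc : L.card = lam := h.hl x y hxy
  have hne : L.offDiag.Nonempty := by
    rw [← Finset.card_pos, Finset.offDiag_card, hLc]
    have : lam * 2 ≤ lam * lam := Nat.mul_le_mul_left lam hlam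
    omega
  obtain ⟨⟨B₁, B₂⟩, hmem, hmax⟩ := Finset.exists_max_image L.offDiag
    (fun p => (p.1 ∩ p.2).card) hne
  rw [Finset.mem_offDiag] at hmem
  obtain ⟨hB₁, hB₂, hB12⟩ := hmem
  simp only at hB₁ hB₂ hB12 hmax
  set F := B₁ ∩ B₂ with hF
  have hmL : ∀ B ∈ L, B ∈ Bl ∧ x ∈ B ∧ y ∈ B := fun B hB => by
    rw [hL, Finset.mem_filter] at hB; exact hB
  have hxF : x ∈ F := Finset.mem_inter.2 ⟨(hmL _ hB₁).2.1, (hmL _ hB₂).2.1⟩
  have hyF : y ∈ F := Finset.mem_inter.2 ⟨(hmL _ hB₁).2.2, (hmL _ hB₂).2.2⟩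
  have hFk : F.card < k := by
    rw [← h.hk _ (hmL _ hB₁).1]
    apply Finset.card_lt_card
    rw [Finset.ssubset_iff_subset_ne]
    refine ⟨Finset.inter_subset_left, fun heq => hB12 ?_⟩
    have : B₁ ⊆ B₂ := by rw [← heq]; exact Finset.inter_subset_right
    exact Finset.eq_of_subset_of_card_le this (by rw [h.hk _ (hmL _ hB₁).1, h.hk _ (hmL _ hB₂).1])
  refine ⟨F, L.filter (fun B => F ⊆ B), Finset.filter_subset _ _, ?_, hxF, hyF, ?_, ?_, ?_, ?_,
    hFk, ?_, fun B hB B' hB' hne => hmax (B, B') (Finset.mem_offDiag.2 ⟨hB, hB', hne⟩)⟩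
  · rw [← Finset.card_pair hB12]
    apply Finset.card_le_card
    intro B hB
    rw [Finset.mem_insert, Finset.mem_singleton] at hB
    rw [Finset.mem_filter]
    rcases hB with rfl | rfl
    · exact ⟨hB₁, Finset.inter_subset_left⟩
    · exact ⟨hB₂, Finset.inter_subset_right⟩
  · intro B hB
    exact (Finset.mem_filter.1 hB).2
  · intro B hB B' hB' hBB'
    rw [Finset.mem_filter] at hB hB'
    symm
    apply Finset.eq_of_subset_of_card_le (Finset.subset_inter hB.2 hB'.2)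
    exact hmax (B, B') (Finset.mem_offDiag.2 ⟨hB.1, hB'.1, hBB'⟩)
  · intro z
    by_cases h1 : z ∈ B₁
    · exact ⟨B₁, Finset.mem_filter.2 ⟨hB₁, Finset.inter_subset_left⟩, h1⟩
    by_cases h2 : z ∈ B₂
    · exact ⟨B₂, Finset.mem_filter.2 ⟨hB₂, Finset.inter_subset_right⟩, h2⟩
    obtain ⟨B, hB, hz, hsub⟩ := h.ex _ (hmL _ hB₁).1 _ (hmL _ hB₂).1 hB12 z h1 h2
    exact ⟨B, Finset.mem_filter.2 ⟨by
      rw [hL, Finset.mem_filter]; exact ⟨hB, hsub hxF, hsub hyF⟩, hsub⟩, hz⟩
  · intro B hB hFB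
    exact Finset.mem_filter.2 ⟨hB, hFB⟩
  · set T := L.filter (fun B => F ⊆ B) with hT
    have hinter : ∀ B ∈ T, ∀ B' ∈ T, B ≠ B' → B ∩ B' = F := by
      intro B hB B' hB' hBB'
      rw [hT, Finset.mem_filter] at hB hB'
      symm
      apply Finset.eq_of_subset_of_card_le (Finset.subset_inter hB.2 hB'.2)
      exact hmax (B, B') (Finset.mem_offDiag.2 ⟨hB.1, hB'.1, hBB'⟩)
    have hcov : ∀ z, ∃ B ∈ T, z ∈ B := by
      intro z
      by_cases h1 : z ∈ B₁
      · exact ⟨B₁, Finset.mem_filter.2 ⟨hB₁, Finset.inter_subset_left⟩, h1⟩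
      by_cases h2 : z ∈ B₂
      · exact ⟨B₂, Finset.mem_filter.2 ⟨hB₂, Finset.inter_subset_right⟩, h2⟩
      obtain ⟨B, hB, hz, hsub⟩ := h.ex _ (hmL _ hB₁).1 _ (hmL _ hB₂).1 hB12 z h1 h2
      exact ⟨B, Finset.mem_filter.2 ⟨by
        rw [hL, Finset.mem_filter]; exact ⟨hB, hsub hxF, hsub hyF⟩, hsub⟩, hz⟩
    have hU : Finset.univ \ F = T.biUnion (fun B => B \ F) := by
      ext z
      simp only [Finset.mem_sdiff, Finset.mem_univ, true_and, Finset.mem_biUnion]
      constructor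
      · intro hz
        obtain ⟨B, hB, hzB⟩ := hcov z
        exact ⟨B, hB, hzB, hz⟩
      · rintro ⟨B, _, _, hz⟩
        exact hz
    have hcard : (Finset.univ \ F).card = T.card * (k - F.card) := by
      rw [hU, Finset.card_biUnion]
      · have hc : ∀ B ∈ T, (B \ F).card = k - F.card := by
          intro B hB
          have hB' := Finset.mem_filter.1 hB
          rw [Finset.card_sdiff_of_subset hB'.2, h.hk _ (hmL _ hB'.1).1]
        rw [Finset.sum_congr rfl hc, Finset.sum_const, smul_eq_mul]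
      · intro B hB B' hB' hBB'
        show Disjoint (B \ F) (B' \ F)
        rw [Finset.disjoint_left]
        intro z hz hz'
        rw [Finset.mem_sdiff] at hz hz'
        apply hz.2
        rw [← hinter B hB B' hB' hBB']
        exact Finset.mem_inter.2 ⟨hz.1, hz'.1⟩
    rw [← hcard, Finset.card_sdiff_of_subset (Finset.subset_univ F), Finset.card_univ]
    have : F.card ≤ Fintype.card α := Finset.card_le_univ F
    omega

/-- If the pencil is not everything but misses at most two blocks then `v + 3 ≤ 2 k`. -/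
theorem HD.nonsun (h : HD Bl r k lam) {x y : α} (hxy : x ≠ y)
    {F : Finset α} {T : Finset (Finset α)} (hT : T ⊆ Bl.filter (fun B => x ∈ B ∧ y ∈ B))
    (hT2 : 2 ≤ T.card) (hx : x ∈ F) (hy : y ∈ F) (hFB : ∀ B ∈ T, F ⊆ B)
    (hint : ∀ B ∈ T, ∀ B' ∈ T, B ≠ B' → B ∩ B' = F) (hcov : ∀ z, ∃ B ∈ T, z ∈ B)
    (hin : ∀ B ∈ Bl.filter (fun B => x ∈ B ∧ y ∈ B), F ⊆ B → B ∈ T) (hFk : F.card < k)
    (hv : Fintype.card α = F.card + T.card * (k - F.card))
    (hTne : T ≠ Bl.filter (fun B => x ∈ B ∧ y ∈ B)) (hlt : T.card = 2 ∨ lam ≤ T.card + 2) :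
    Fintype.card α + 3 ≤ 2 * k := by
  set L := Bl.filter (fun B => x ∈ B ∧ y ∈ B) with hL
  have hLc : L.card = lam := h.hl x y hxy
  have hmL : ∀ B ∈ L, B ∈ Bl ∧ x ∈ B ∧ y ∈ B := fun B hB => by
    rw [hL, Finset.mem_filter] at hB; exact hB
  obtain ⟨C, hC, hCT⟩ : ∃ C ∈ L, C ∉ T := by
    by_contra hcon
    push Not at hcon
    exact hTne (Finset.Subset.antisymm hT hcon)
  have hCF : ¬ F ⊆ C := fun hs => hCT (hin C hC hs)
  have hf3 : 3 ≤ F.card := by
    obtain ⟨w, hwF, hwC⟩ := Finset.not_subset.1 hCF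
    have : ({x, y, w} : Finset α) ⊆ F := by
      intro a ha
      simp only [Finset.mem_insert, Finset.mem_singleton] at ha
      rcases ha with rfl | rfl | rfl <;> assumption
    have hc : ({x, y, w} : Finset α).card = 3 := by
      rw [Finset.card_eq_three]
      exact ⟨x, y, w, hxy, fun e => hwC (e ▸ (hmL C hC).2.1), fun e => hwC (e ▸ (hmL C hC).2.2),
        rfl⟩
    rw [← hc]
    exact Finset.card_le_card this
  by_cases ht : T.card = 2
  · rw [ht] at hv
    omega
  have ht3 : 3 ≤ T.card := by omega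
  by_contra hcon
  push Not at hcon
  have hcardC : C.card = k := h.hk C (hmL C hC).1
  -- every block of the pencil that meets `C` outside `F` gives another block outside the pencil
  have key : ∀ B ∈ T, ∀ w ∈ B, w ∈ C → w ∉ F → ∃ D ∈ L, D ∉ T ∧ D ≠ C ∧ B ∩ C ⊆ D := by
    intro B hB w hwB hwC hwF
    have hBL := hT hB
    have hxw : x ≠ w := fun e => hwF (e ▸ hx)
    have hyw : y ≠ w := fun e => hwF (e ▸ hy)
    have hBC : B ≠ C := fun e => hCT (e ▸ hB)
    have h3 : 3 ≤ (B ∩ C).card := by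
      have : ({x, y, w} : Finset α) ⊆ B ∩ C := by
        intro a ha
        simp only [Finset.mem_insert, Finset.mem_singleton] at ha
        rw [Finset.mem_inter]
        rcases ha with rfl | rfl | rfl
        · exact ⟨(hmL B hBL).2.1, (hmL C hC).2.1⟩
        · exact ⟨(hmL B hBL).2.2, (hmL C hC).2.2⟩
        · exact ⟨hwB, hwC⟩
      have hc : ({x, y, w} : Finset α).card = 3 := by
        rw [Finset.card_eq_three]
        exact ⟨x, y, w, hxy, hxw, hyw, rfl⟩
      rw [← hc]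
      exact Finset.card_le_card this
    have hun : (B ∪ C).card + (B ∩ C).card = k + k := by
      rw [Finset.card_union_add_card_inter, h.hk B (hmL B hBL).1, hcardC]
    obtain ⟨z, hz⟩ : ∃ z, z ∉ B ∪ C := by
      by_contra hall
      push Not at hall
      have : (B ∪ C).card = Fintype.card α := by
        rw [← Finset.card_univ]
        congr 1
        exact Finset.eq_univ_iff_forall.2 hall
      omega
    rw [Finset.mem_union, not_or] at hz
    obtain ⟨D, hD, hzD, hsub⟩ := h.ex B (hmL B hBL).1 C (hmL C hC).1 hBC z hz.1 hz.2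
    have hDL : D ∈ L := by
      rw [hL, Finset.mem_filter]
      exact ⟨hD, hsub (Finset.mem_inter.2 ⟨(hmL B hBL).2.1, (hmL C hC).2.1⟩),
        hsub (Finset.mem_inter.2 ⟨(hmL B hBL).2.2, (hmL C hC).2.2⟩)⟩
    refine ⟨D, hDL, ?_, fun e => hz.2 (e ▸ hzD), hsub⟩
    intro hDT
    have hDB : D ≠ B := fun e => hz.1 (e ▸ hzD)
    have := hint D hDT B hB hDB
    apply hwF
    rw [← this, Finset.mem_inter]
    exact ⟨hsub (Finset.mem_inter.2 ⟨hwB, hwC⟩), hwB⟩
  -- there is such a block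
  obtain ⟨c, hcC, hcF⟩ : ∃ c ∈ C, c ∉ F := by
    by_contra hall
    push Not at hall
    have := Finset.card_le_card (show C ⊆ F from hall)
    omega
  obtain ⟨B₀, hB₀, hcB₀⟩ := hcov c
  obtain ⟨D, hDL, hDT, hDC, hD⟩ := key B₀ hB₀ c hcB₀ hcC hcF
  -- and it is unique
  have huniq : ∀ D' ∈ L, D' ∉ T → D' ≠ C → D' = D := by
    intro D' hD'L hD'T hD'C
    by_contra hne
    have hsub : T ∪ {C, D, D'} ⊆ L := by
      intro a ha
      simp only [Finset.mem_union, Finset.mem_insert, Finset.mem_singleton] at ha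
      rcases ha with ha | rfl | rfl | rfl
      · exact hT ha
      · exact hC
      · exact hDL
      · exact hD'L
    have hdisj : Disjoint T {C, D, D'} := by
      rw [Finset.disjoint_right]
      intro a ha
      simp only [Finset.mem_insert, Finset.mem_singleton] at ha
      rcases ha with rfl | rfl | rfl <;> assumption
    have hc3 : ({C, D, D'} : Finset (Finset α)).card = 3 := by
      rw [Finset.card_eq_three]
      exact ⟨C, D, D', hDC.symm, hD'C.symm, fun e => hne e.symm, rfl⟩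
    have := Finset.card_le_card hsub
    rw [Finset.card_union_of_disjoint hdisj, hc3, hLc] at this
    omega
  have hCD : C ⊆ D := by
    intro a ha
    by_cases haF : a ∈ F
    · exact hD (Finset.mem_inter.2 ⟨hFB B₀ hB₀ haF, ha⟩)
    · obtain ⟨B, hB, haB⟩ := hcov a
      obtain ⟨D', hD'L, hD'T, hD'C, hD'⟩ := key B hB a haB ha haF
      rw [huniq D' hD'L hD'T hD'C] at hD'
      exact hD' (Finset.mem_inter.2 ⟨haB, ha⟩)
  exact hDC (Finset.eq_of_subset_of_card_le hCD (by rw [h.hk D (hmL D hDL).1, hcardC])).symm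

end

end Pool.Agent.Helper119.MD
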