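import Mathlib

open Set

namespace Pool.Agent.Helper119.MD

/-- Hyperplanes of a matroid: flats of rank one less than the rank of the matroid. -/
def IsHyp {α : Type*} (M : Matroid α) (H : Set α) : Prop :=
  M.IsFlat H ∧ M.eRk H + 1 = M.eRank

/-- `(b, v, r, k, lam)` is matroidal: some matroid on `v` points has as its set of hyperplanes
exactly the set of (pairwise distinct) blocks of a balanced incomplete block design with these
parameters. -/
def Matroidal (b v r k lam : ℕ) : Prop :=
  ∃ (M : Matroid (Fin v)) (Bl : Finset (Finset (Fin v))), M.E = Set.univ ∧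
    (∀ B : Finset (Fin v), B ∈ Bl ↔ IsHyp M (B : Set (Fin v))) ∧
    Bl.card = b ∧ (∀ B ∈ Bl, B.card = k) ∧
    (∀ x : Fin v, (Bl.filter (fun B => x ∈ B)).card = r) ∧
    (∀ x y : Fin v, x ≠ y → (Bl.filter (fun B => x ∈ B ∧ y ∈ B)).card = lam)

/-- The hyperplane exchange property. -/
theorem hyp_exchange {α : Type*} [Finite α] {M : Matroid α} (hE : M.E = Set.univ) {H₁ H₂ : Set α}
    (h₁ : IsHyp M H₁) (h₂ : IsHyp M H₂) (hne : H₁ ≠ H₂) (z : α) :
    ∃ H, IsHyp M H ∧ z ∈ H ∧ H₁ ∩ H₂ ⊆ H := by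
  have : M.Finite := ⟨Set.toFinite _⟩
  have htop : ∀ X, M.eRk X ≠ ⊤ := fun X => by
    rw [Matroid.eRk_ne_top_iff]; exact M.isRkFinite_set X
  set F := H₁ ∩ H₂ with hF
  have hlt : M.eRk F < M.eRk H₁ := by
    rw [lt_iff_not_ge]
    intro hge
    have hc := (M.isRkFinite_set F).closure_eq_closure_of_subset_of_eRk_ge_eRk
      (Set.inter_subset_left : F ⊆ H₁) hge
    rw [h₁.1.closure] at hc
    have h12 : H₁ ⊆ H₂ := by
      rw [← hc]
      have := M.closure_subset_closure (Set.inter_subset_right : F ⊆ H₂)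
      rwa [h₂.1.closure] at this
    have heq : M.eRk H₂ ≤ M.eRk H₁ := by
      have e := h₁.2.trans h₂.2.symm
      have := (ENat.add_left_injective_of_ne_top (by norm_num : (1 : ℕ∞) ≠ ⊤)) e
      exact this.ge
    have hc2 := (M.isRkFinite_set H₁).closure_eq_closure_of_subset_of_eRk_ge_eRk h12 heq
    rw [h₁.1.closure, h₂.1.closure] at hc2
    exact hne hc2
  have hrk : M.eRk (insert z F) < M.eRank := by
    have a1 : M.eRk (insert z F) ≤ M.eRk F + 1 := M.eRk_insert_le_add_one z F
    have a2 : M.eRk F + 1 ≤ M.eRk H₁ := Order.add_one_le_of_lt hlt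
    have a3 : M.eRk H₁ < M.eRank := by
      rw [← h₁.2]
      exact ENat.lt_add_one_iff (htop _) |>.2 le_rfl
    exact lt_of_le_of_lt (a1.trans a2) a3
  obtain ⟨I, hI⟩ := M.exists_isBasis (insert z F) (by rw [hE]; exact Set.subset_univ _)
  obtain ⟨B, hB, hIB⟩ := hI.indep.exists_isBase_superset
  have hne' : I ≠ B := by
    intro h
    rw [← hI.encard_eq_eRk, h, hB.encard_eq_eRank] at hrk
    exact lt_irrefl _ hrk
  obtain ⟨e, heB, heI⟩ := Set.exists_of_ssubset (hIB.ssubset_of_ne hne')
  refine ⟨M.closure (B \ {e}), ⟨M.isFlat_closure _, ?_⟩, ?_, ?_⟩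
  · rw [Matroid.eRk_closure_eq, (hB.indep.subset Set.sdiff_subset).eRk_eq_encard,
      Set.encard_sdiff_singleton_add_one heB, hB.encard_eq_eRank]
  · have : insert z F ⊆ M.closure (B \ {e}) := by
      refine hI.subset_closure.trans (M.closure_subset_closure ?_)
      intro i hi
      exact ⟨hIB hi, fun h => heI (by rw [Set.mem_singleton_iff] at h; rwa [h] at hi)⟩
    exact this (Set.mem_insert _ _)
  · have : insert z F ⊆ M.closure (B \ {e}) := by
      refine hI.subset_closure.trans (M.closure_subset_closure ?_)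
      intro i hi
      exact ⟨hIB hi, fun h => heI (by rw [Set.mem_singleton_iff] at h; rwa [h] at hi)⟩
    exact (Set.subset_insert _ _).trans this

end Pool.Agent.Helper119.MD
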