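import Pool.Agent.Helper119.MD.Sun

open Finset

namespace Pool.Agent.Helper119.MD

section
variable {α : Type*} [Fintype α] [DecidableEq α] {Bl : Finset (Finset α)} {r k lam : ℕ}

theorem HD.basic (h : HD Bl r k lam) (hb : Fintype.card α < Bl.card) (hlam : 3 ≤ lam) :
    3 ≤ k ∧ k < Fintype.card α ∧ k < r ∧ Bl.Nonempty := by
  have hne : Bl.Nonempty := by rw [← Finset.card_pos]; omega
  obtain ⟨B, hB⟩ := hne
  have hBv : B.card < Fintype.card α := by
    rw [← Finset.card_univ]
    exact Finset.card_lt_card (Finset.ssubset_univ_iff.2 (h.pr B hB))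
  have hkv : k < Fintype.card α := by rw [← h.hk B hB]; exact hBv
  have c1 := h.count1
  have hk0 : k ≠ 0 := by
    intro h0
    have : Bl ⊆ {∅} := by
      intro C hC
      rw [Finset.mem_singleton, ← Finset.card_eq_zero, h.hk C hC, h0]
    have := Finset.card_le_card this
    rw [Finset.card_singleton] at this
    omega
  have hrk : k < r := by
    by_contra hcon
    push Not at hcon
    have : Fintype.card α * r ≤ Fintype.card α * k := Nat.mul_le_mul_left _ hcon
    have h2 : (Fintype.card α + 1) * k ≤ Bl.card * k := Nat.mul_le_mul_right _ hb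
    have h3 : (Fintype.card α + 1) * k = Fintype.card α * k + k := by ring
    omega
  -- two points
  have hv2 : 2 ≤ Fintype.card α := by omega
  obtain ⟨x, y, hxy⟩ := Fintype.exists_pair_of_one_lt_card (show 1 < Fintype.card α by omega)
  have hl := h.hl x y hxy
  have hk3 : 3 ≤ k := by
    by_contra hcon
    have hsub : Bl.filter (fun B => x ∈ B ∧ y ∈ B) ⊆ {{x, y}} := by
      intro C hC
      rw [Finset.mem_filter] at hC
      rw [Finset.mem_singleton]
      symm
      apply Finset.eq_of_subset_of_card_le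
      · intro a ha
        rw [Finset.mem_insert, Finset.mem_singleton] at ha
        rcases ha with rfl | rfl
        · exact hC.2.1
        · exact hC.2.2
      · rw [h.hk C hC.1, Finset.card_pair hxy]
        omega
    have := Finset.card_le_card hsub
    rw [Finset.card_singleton, hl] at this
    omega
  exact ⟨hk3, hkv, hrk, ⟨B, hB⟩⟩

theorem HD.classify (h : HD Bl r k lam) (hb : Fintype.card α < Bl.card) (hlam : 3 ≤ lam)
    (hlam6 : lam ≤ 6) :
    (Bl.card, Fintype.card α, r, k, lam) ∈ ({(10, 5, 6, 3, 3), (14, 8, 7, 4, 3),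
      (20, 6, 10, 3, 4), (30, 10, 12, 4, 4), (39, 27, 13, 9, 4), (35, 7, 15, 3, 5),
      (68, 17, 20, 5, 5), (77, 22, 21, 6, 5), (84, 64, 21, 16, 5), (15, 6, 10, 4, 6),
      (56, 8, 21, 3, 6), (91, 14, 26, 4, 6), (130, 26, 30, 6, 6), (155, 125, 31, 25, 6)} :
        Finset (ℕ × ℕ × ℕ × ℕ × ℕ)) := by
  obtain ⟨hk3, hkv, hrk, hne⟩ := h.basic hb hlam
  have c1 := h.count1
  obtain ⟨x⟩ : Nonempty α := by rw [← Fintype.card_pos_iff]; omega
  have c2 := h.count2 x
  by_cases hv : 2 * k < Fintype.card α + 2 ∨ (lam ≤ 5 ∧ 2 * k < Fintype.card α + 3)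
  · obtain ⟨l, K, hl2, hlK, hKl, hkK, hlk, hvl⟩ := h.lines hlam hlam6 hv (by omega) hne
    clear hv
    generalize Fintype.card α = v at *
    generalize Bl.card = b at *
    simp only [Finset.mem_insert, Finset.mem_singleton, Prod.mk.injEq]
    interval_cases lam <;> interval_cases K <;> interval_cases l <;>
      (have hk' : k = _ := (Nat.sub_eq_iff_eq_add (by omega)).1 hkK
       subst hk'
       norm_num at hvl
       subst hvl
       norm_num at c1 c2 ⊢
       omega)
  · push Not at hv
    obtain ⟨hv1, hv2⟩ := hv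
    have hk10 : k ≤ 10 := by
      by_contra hcon
      push Not at hcon
      have a1 : (k + 1) * (k - 1) ≤ r * (k - 1) := Nat.mul_le_mul_right _ hrk
      have a2 : lam * (Fintype.card α - 1) ≤ 6 * (2 * k - 3) :=
        Nat.mul_le_mul hlam6 (by omega)
      obtain ⟨j, rfl⟩ : ∃ j, k = j + 11 := ⟨k - 11, by omega⟩
      have e1 : j + 11 - 1 = j + 10 := by omega
      have e2 : 2 * (j + 11) - 3 = 2 * j + 19 := by omega
      rw [e1] at a1 c2
      rw [e2] at a2
      nlinarith
    have hmain : (Bl.card, Fintype.card α, r, k, lam) = (12, 9, 8, 6, 5) ∨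
        (Bl.card, Fintype.card α, r, k, lam) = (10, 5, 8, 4, 6) ∨
        (Bl.card, Fintype.card α, r, k, lam) = (12, 4, 9, 3, 6) ∨
        (Bl.card, Fintype.card α, r, k, lam) = (15, 6, 10, 4, 6) := by
      simp only [Prod.mk.injEq]
      generalize Fintype.card α = v at *
      generalize Bl.card = b at *
      have hv18 : v ≤ 18 := by omega
      interval_cases k <;> interval_cases v <;> omega
    rcases hmain with hm | hm | hm | hm
    · exfalso
      simp only [Prod.mk.injEq] at hm
      obtain ⟨e1, e2, e3, e4, e5⟩ := hm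
      subst e3 e4 e5
      exact h.exceptional e2 e1
    · exfalso
      simp only [Prod.mk.injEq] at hm
      obtain ⟨e1, e2, e3, e4, e5⟩ := hm
      have hsub : Bl ⊆ Finset.powersetCard 4 (Finset.univ : Finset α) := by
        intro B hB
        rw [Finset.mem_powersetCard]
        exact ⟨Finset.subset_univ _, by rw [h.hk B hB, e4]⟩
      have := Finset.card_le_card hsub
      rw [Finset.card_powersetCard, Finset.card_univ, e1, e2] at this
      revert this
      decide
    · exfalso
      simp only [Prod.mk.injEq] at hm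
      obtain ⟨e1, e2, e3, e4, e5⟩ := hm
      have hsub : Bl ⊆ Finset.powersetCard 3 (Finset.univ : Finset α) := by
        intro B hB
        rw [Finset.mem_powersetCard]
        exact ⟨Finset.subset_univ _, by rw [h.hk B hB, e4]⟩
      have := Finset.card_le_card hsub
      rw [Finset.card_powersetCard, Finset.card_univ, e1, e2] at this
      revert this
      decide
    · rw [hm]; simp

end

theorem hd_of_matroid {v r k lam : ℕ} {M : Matroid (Fin v)} {Bl : Finset (Finset (Fin v))}
    (hE : M.E = Set.univ) (hBl : ∀ B : Finset (Fin v), B ∈ Bl ↔ IsHyp M (B : Set (Fin v)))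
    (hk : ∀ B ∈ Bl, B.card = k)
    (hr : ∀ x : Fin v, (Bl.filter (fun B => x ∈ B)).card = r)
    (hl : ∀ x y : Fin v, x ≠ y → (Bl.filter (fun B => x ∈ B ∧ y ∈ B)).card = lam) :
    HD Bl r k lam where
  hk := hk
  hr := hr
  hl := hl
  ex := by
    intro B₁ h₁ B₂ h₂ hne z _ _
    rw [hBl] at h₁ h₂
    obtain ⟨H, hH, hz, hsub⟩ := hyp_exchange hE h₁ h₂ (fun e => hne (Finset.coe_injective e)) z
    classical
    refine ⟨H.toFinite.toFinset, ?_, ?_, ?_⟩
    · rw [hBl, Set.Finite.coe_toFinset]; exact hH
    · rw [Set.Finite.mem_toFinset]; exact hz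
    · intro a ha
      rw [Set.Finite.mem_toFinset]
      rw [Finset.mem_inter] at ha
      exact hsub ⟨Finset.mem_coe.2 ha.1, Finset.mem_coe.2 ha.2⟩
  pr := by
    intro B hB hu
    rw [hBl, hu] at hB
    have h2 := hB.2
    rw [Finset.coe_univ, ← hE, Matroid.eRk_ground] at h2
    have : M.Finite := ⟨Set.toFinite _⟩
    have htop : M.eRank ≠ ⊤ := by
      rw [Matroid.eRank_ne_top_iff]; infer_instance
    have := (ENat.lt_add_one_iff htop (m := M.eRank)).2 le_rfl
    rw [h2] at this
    exact lt_irrefl _ this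

end Pool.Agent.Helper119.MD
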