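import Pool.Agent.Helper119.MD.Core

open Finset

namespace Pool.Agent.Helper119.MD

section
variable {α : Type*} [Fintype α] [DecidableEq α] {Bl : Finset (Finset α)} {r k lam : ℕ}

/-- If the pencil has three blocks and misses exactly three blocks then `v + 2 ≤ 2 k`. -/
theorem HD.nonsun3 (h : HD Bl r k lam) {x y : α} (hxy : x ≠ y)
    {F : Finset α} {T : Finset (Finset α)} (hT : T ⊆ Bl.filter (fun B => x ∈ B ∧ y ∈ B))
    (hx : x ∈ F) (hy : y ∈ F) (hFB : ∀ B ∈ T, F ⊆ B)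
    (hint : ∀ B ∈ T, ∀ B' ∈ T, B ≠ B' → B ∩ B' = F) (hcov : ∀ z, ∃ B ∈ T, z ∈ B)
    (hFk : F.card < k)
    (hv : Fintype.card α = F.card + T.card * (k - F.card))
    (hmax : ∀ B ∈ Bl.filter (fun B => x ∈ B ∧ y ∈ B), ∀ B' ∈ Bl.filter (fun B => x ∈ B ∧ y ∈ B),
        B ≠ B' → (B ∩ B').card ≤ F.card)
    (hT3 : T.card = 3) (hlam : lam = 6) : Fintype.card α + 2 ≤ 2 * k := by
  set L := Bl.filter (fun B => x ∈ B ∧ y ∈ B) with hL
  have hLc : L.card = lam := h.hl x y hxy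
  have hmL : ∀ B ∈ L, B ∈ Bl ∧ x ∈ B ∧ y ∈ B := fun B hB => by
    rw [hL, Finset.mem_filter] at hB; exact hB
  by_contra hcon
  push Not at hcon
  have hLT : (L \ T).card = 3 := by
    rw [Finset.card_sdiff_of_subset hT, hLc, hT3, hlam]
  obtain ⟨C, hC'⟩ : (L \ T).Nonempty := by rw [← Finset.card_pos]; omega
  have hCLT := hC'
  rw [Finset.mem_sdiff] at hC'
  obtain ⟨hC, hCT⟩ := hC'
  have hcardC : C.card = k := h.hk C (hmL C hC).1
  -- every block of the pencil that meets `C` outside `F` gives another block outside the pencil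
  have key : ∀ B ∈ T, ∀ w ∈ B, w ∈ C → w ∉ F → ∃ D ∈ L, D ∉ T ∧ D ≠ C ∧ B ∩ C ⊆ D := by
    intro B hB w hwB hwC hwF
    have hBL := hT hB
    have hxw : x ≠ w := fun e => hwF (e ▸ hx)
    have hyw : y ≠ w := fun e => hwF (e ▸ hy)
    have hBC : B ≠ C := fun e => hCT (e ▸ hB)
    have h3 : 3 ≤ (B ∩ C).card := by
      have : ({x, y, w} : Finset α) ⊆ B ∩ C := by
        intro a ha
        simp only [Finset.mem_insert, Finset.mem_singleton] at ha
        rw [Finset.mem_inter]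
        rcases ha with rfl | rfl | rfl
        · exact ⟨(hmL B hBL).2.1, (hmL C hC).2.1⟩
        · exact ⟨(hmL B hBL).2.2, (hmL C hC).2.2⟩
        · exact ⟨hwB, hwC⟩
      have hc : ({x, y, w} : Finset α).card = 3 := by
        rw [Finset.card_eq_three]
        exact ⟨x, y, w, hxy, hxw, hyw, rfl⟩
      rw [← hc]
      exact Finset.card_le_card this
    have hun : (B ∪ C).card + (B ∩ C).card = k + k := by
      rw [Finset.card_union_add_card_inter, h.hk B (hmL B hBL).1, hcardC]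
    obtain ⟨z, hz⟩ : ∃ z, z ∉ B ∪ C := by
      by_contra hall
      push Not at hall
      have : (B ∪ C).card = Fintype.card α := by
        rw [← Finset.card_univ]
        congr 1
        exact Finset.eq_univ_iff_forall.2 hall
      omega
    rw [Finset.mem_union, not_or] at hz
    obtain ⟨D, hD, hzD, hsub⟩ := h.ex B (hmL B hBL).1 C (hmL C hC).1 hBC z hz.1 hz.2
    have hDL : D ∈ L := by
      rw [hL, Finset.mem_filter]
      exact ⟨hD, hsub (Finset.mem_inter.2 ⟨(hmL B hBL).2.1, (hmL C hC).2.1⟩),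
        hsub (Finset.mem_inter.2 ⟨(hmL B hBL).2.2, (hmL C hC).2.2⟩)⟩
    refine ⟨D, hDL, ?_, fun e => hz.2 (e ▸ hzD), hsub⟩
    intro hDT
    have hDB : D ≠ B := fun e => hz.1 (e ▸ hzD)
    have := hint D hDT B hB hDB
    apply hwF
    rw [← this, Finset.mem_inter]
    exact ⟨hsub (Finset.mem_inter.2 ⟨hwB, hwC⟩), hwB⟩
  have hD2 : ((L \ T).erase C).card = 2 := by
    rw [Finset.card_erase_of_mem hCLT, hLT]
  obtain ⟨D₁, D₂, hD12, hDD⟩ := Finset.card_eq_two.1 hD2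
  have hmD : ∀ D, D ∈ L → D ∉ T → D ≠ C → D = D₁ ∨ D = D₂ := by
    intro D h1 h2 h3
    have : D ∈ (L \ T).erase C := Finset.mem_erase.2 ⟨h3, Finset.mem_sdiff.2 ⟨h1, h2⟩⟩
    rw [hDD, Finset.mem_insert, Finset.mem_singleton] at this
    exact this
  have hD₁ : D₁ ∈ L ∧ D₁ ≠ C := by
    have : D₁ ∈ (L \ T).erase C := by rw [hDD]; simp
    rw [Finset.mem_erase, Finset.mem_sdiff] at this
    exact ⟨this.2.1, this.1⟩
  have hD₂ : D₂ ∈ L ∧ D₂ ≠ C := by
    have : D₂ ∈ (L \ T).erase C := by rw [hDD]; simp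
    rw [Finset.mem_erase, Finset.mem_sdiff] at this
    exact ⟨this.2.1, this.1⟩
  -- every block of the pencil is attached to `D₁` or `D₂`
  have hatt : ∀ B ∈ T, B ∩ C ⊆ D₁ ∨ B ∩ C ⊆ D₂ := by
    obtain ⟨c, hcC, hcF⟩ : ∃ c ∈ C, c ∉ F := by
      by_contra hall
      push Not at hall
      have := Finset.card_le_card (show C ⊆ F from hall)
      omega
    obtain ⟨B₀, hB₀, hcB₀⟩ := hcov c
    obtain ⟨D, hDL, hDT, hDC, hD⟩ := key B₀ hB₀ c hcB₀ hcC hcF
    intro B hB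
    by_cases hBF : B ∩ C ⊆ F
    · have hBD : B ∩ C ⊆ D := by
        intro a ha
        exact hD (Finset.mem_inter.2 ⟨hFB B₀ hB₀ (hBF ha), (Finset.mem_inter.1 ha).2⟩)
      rcases hmD D hDL hDT hDC with rfl | rfl
      · exact Or.inl hBD
      · exact Or.inr hBD
    · obtain ⟨w, hw, hwF⟩ := Finset.not_subset.1 hBF
      rw [Finset.mem_inter] at hw
      obtain ⟨D', hDL', hDT', hDC', hD'⟩ := key B hB w hw.1 hw.2 hwF
      rcases hmD D' hDL' hDT' hDC' with rfl | rfl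
      · exact Or.inl hD'
      · exact Or.inr hD'
  have fin : ∀ D ∈ L, D ≠ C → ∀ B ∈ T, ∀ B' ∈ T, ∀ B'' ∈ T,
      (∀ z, z ∈ B ∨ z ∈ B' ∨ z ∈ B'') → B ∩ C ⊆ D → B' ∩ C ⊆ D → False := by
    intro D hDL hDC B hB B' hB' B'' hB'' hc3 h1 h2
    have hPc : (B'' \ F).card = k - F.card := by
      rw [Finset.card_sdiff_of_subset (hFB B'' hB''), h.hk _ (hmL _ (hT hB'')).1]
    have s1 : C ⊆ (C ∩ D) ∪ (C ∩ (B'' \ F)) := by
      intro z hz
      rw [Finset.mem_union, Finset.mem_inter, Finset.mem_inter]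
      by_cases hzD : z ∈ D
      · exact Or.inl ⟨hz, hzD⟩
      · right
        refine ⟨hz, ?_⟩
        rw [Finset.mem_sdiff]
        constructor
        · rcases hc3 z with hzB | hzB | hzB
          · exact absurd (h1 (Finset.mem_inter.2 ⟨hzB, hz⟩)) hzD
          · exact absurd (h2 (Finset.mem_inter.2 ⟨hzB, hz⟩)) hzD
          · exact hzB
        · intro hzF
          exact hzD (h1 (Finset.mem_inter.2 ⟨hFB B hB hzF, hz⟩))
    have s2 := Finset.card_le_card s1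
    have s3 := Finset.card_union_le (C ∩ D) (C ∩ (B'' \ F))
    have s4 := hmax C hC D hDL hDC.symm
    have s5 : C ∩ (B'' \ F) = B'' \ F := by
      apply Finset.eq_of_subset_of_card_le Finset.inter_subset_right
      omega
    have s6 : B'' \ F ⊆ C := by rw [← s5]; exact Finset.inter_subset_left
    have hdisj : Disjoint ({x, y} : Finset α) (B'' \ F) := by
      rw [Finset.disjoint_left]
      intro a ha ha'
      rw [Finset.mem_insert, Finset.mem_singleton] at ha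
      rw [Finset.mem_sdiff] at ha'
      rcases ha with rfl | rfl
      · exact ha'.2 hx
      · exact ha'.2 hy
    have s7 : ({x, y} : Finset α) ∪ (B'' \ F) ⊆ C ∩ B'' := by
      intro a ha
      rw [Finset.mem_union, Finset.mem_insert, Finset.mem_singleton] at ha
      rw [Finset.mem_inter]
      rcases ha with (rfl | rfl) | ha
      · exact ⟨(hmL C hC).2.1, hFB B'' hB'' hx⟩
      · exact ⟨(hmL C hC).2.2, hFB B'' hB'' hy⟩
      · exact ⟨s6 ha, (Finset.mem_sdiff.1 ha).1⟩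
    have s8 := Finset.card_le_card s7
    rw [Finset.card_union_of_disjoint hdisj, Finset.card_pair hxy, hPc] at s8
    have s9 := hmax C hC B'' (hT hB'') (fun e => hCT (e ▸ hB''))
    rw [hT3] at hv
    omega
  obtain ⟨B₁, B₂, B₃, h12, h13, h23, hTe⟩ := Finset.card_eq_three.1 hT3
  have hm : ∀ B, B ∈ T ↔ B = B₁ ∨ B = B₂ ∨ B = B₃ := fun B => by
    rw [hTe]; simp
  have hB₁ : B₁ ∈ T := (hm _).2 (Or.inl rfl)
  have hB₂ : B₂ ∈ T := (hm _).2 (Or.inr (Or.inl rfl))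
  have hB₃ : B₃ ∈ T := (hm _).2 (Or.inr (Or.inr rfl))
  have hc : ∀ z, z ∈ B₁ ∨ z ∈ B₂ ∨ z ∈ B₃ := by
    intro z
    obtain ⟨B, hB, hz⟩ := hcov z
    rcases (hm B).1 hB with rfl | rfl | rfl
    · exact Or.inl hz
    · exact Or.inr (Or.inl hz)
    · exact Or.inr (Or.inr hz)
  have hc2 : ∀ z, z ∈ B₁ ∨ z ∈ B₃ ∨ z ∈ B₂ := fun z => by
    rcases hc z with h | h | h <;> tauto
  have hc3 : ∀ z, z ∈ B₂ ∨ z ∈ B₃ ∨ z ∈ B₁ := fun z => by
    rcases hc z with h | h | h <;> tauto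
  rcases hatt B₁ hB₁ with a1 | a1 <;> rcases hatt B₂ hB₂ with a2 | a2
  · exact fin D₁ hD₁.1 hD₁.2 B₁ hB₁ B₂ hB₂ B₃ hB₃ hc a1 a2
  · rcases hatt B₃ hB₃ with a3 | a3
    · exact fin D₁ hD₁.1 hD₁.2 B₁ hB₁ B₃ hB₃ B₂ hB₂ hc2 a1 a3
    · exact fin D₂ hD₂.1 hD₂.2 B₂ hB₂ B₃ hB₃ B₁ hB₁ hc3 a2 a3
  · rcases hatt B₃ hB₃ with a3 | a3
    · exact fin D₁ hD₁.1 hD₁.2 B₂ hB₂ B₃ hB₃ B₁ hB₁ hc3 a2 a3
    · exact fin D₂ hD₂.1 hD₂.2 B₁ hB₁ B₃ hB₃ B₂ hB₂ hc2 a1 a3
  · exact fin D₂ hD₂.1 hD₂.2 B₁ hB₁ B₂ hB₂ B₃ hB₃ hc a1 a2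

/-- Everything about a pair of points when `v` is large compared to `k`. -/
theorem HD.allT (h : HD Bl r k lam) (hlam : 3 ≤ lam) (hlam6 : lam ≤ 6)
    (hv : 2 * k < Fintype.card α + 2 ∨ (lam ≤ 5 ∧ 2 * k < Fintype.card α + 3))
    {x y : α} (hxy : x ≠ y) :
    ∃ F : Finset α, (∀ B ∈ Bl.filter (fun B => x ∈ B ∧ y ∈ B), F ⊆ B) ∧
      (∀ B ∈ Bl.filter (fun B => x ∈ B ∧ y ∈ B), ∀ B' ∈ Bl.filter (fun B => x ∈ B ∧ y ∈ B),
        B ≠ B' → B ∩ B' = F) ∧
      (∀ z, ∃ B ∈ Bl.filter (fun B => x ∈ B ∧ y ∈ B), z ∈ B) ∧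
      F.card < k ∧ Fintype.card α = F.card + lam * (k - F.card) := by
  obtain ⟨F, T, hT, hT2, hx, hy, hFB, hint, hcov, hin, hFk, hcard, hmax⟩ :=
    h.pencil (by omega) hxy
  have hTle : T.card ≤ lam := by
    have := Finset.card_le_card hT
    rwa [h.hl x y hxy] at this
  have hTL : T = Bl.filter (fun B => x ∈ B ∧ y ∈ B) := by
    by_contra hne
    by_cases hc : T.card = 2 ∨ lam ≤ T.card + 2
    · have := h.nonsun hxy hT hT2 hx hy hFB hint hcov hin hFk hcard hne hc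
      omega
    · push Not at hc
      have hT3 : T.card = 3 := by omega
      have hl6 : lam = 6 := by omega
      have := h.nonsun3 hxy hT hx hy hFB hint hcov hFk hcard hmax hT3 hl6
      omega
  refine ⟨F, ?_, ?_, ?_, hFk, ?_⟩
  · rw [← hTL]; exact hFB
  · rw [← hTL]; exact hint
  · rw [← hTL]; exact hcov
  · rw [hcard, hTL, h.hl x y hxy]

end

end Pool.Agent.Helper119.MD
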