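import Pool.Agent.Helper119.MD.Six

open Finset

namespace Pool.Agent.Helper119.MD

section
variable {α : Type*} [Fintype α] [DecidableEq α] {Bl : Finset (Finset α)} {r k lam : ℕ}

/-- The line through two points: the intersection of all blocks containing both. -/
def ln (Bl : Finset (Finset α)) (x y : α) : Finset α :=
  Finset.univ.filter (fun z => ∀ B ∈ Bl, x ∈ B → y ∈ B → z ∈ B)

theorem mem_ln {x y z : α} : z ∈ ln Bl x y ↔ ∀ B ∈ Bl, x ∈ B → y ∈ B → z ∈ B := by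
  simp [ln]

theorem left_mem (x y : α) : x ∈ ln Bl x y := mem_ln.2 (fun _ _ h _ => h)
theorem right_mem (x y : α) : y ∈ ln Bl x y := mem_ln.2 (fun _ _ _ h => h)

theorem ln_sub {x y : α} {B : Finset α} (hB : B ∈ Bl) (hx : x ∈ B) (hy : y ∈ B) :
    ln Bl x y ⊆ B := fun _ hz => mem_ln.1 hz B hB hx hy

theorem HD.ln_eq (h : HD Bl r k lam) {x y x' y' : α} (hxy : x ≠ y) (hxy' : x' ≠ y')
    (hx : x' ∈ ln Bl x y) (hy : y' ∈ ln Bl x y) : ln Bl x' y' = ln Bl x y := by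
  have hsub : Bl.filter (fun B => x ∈ B ∧ y ∈ B) ⊆ Bl.filter (fun B => x' ∈ B ∧ y' ∈ B) := by
    intro B hB
    rw [Finset.mem_filter] at hB ⊢
    exact ⟨hB.1, mem_ln.1 hx B hB.1 hB.2.1 hB.2.2, mem_ln.1 hy B hB.1 hB.2.1 hB.2.2⟩
  have heq := Finset.eq_of_subset_of_card_le hsub (by rw [h.hl x y hxy, h.hl x' y' hxy'])
  ext z
  rw [mem_ln, mem_ln]
  constructor
  · intro hz B hB hxB hyB
    have : B ∈ Bl.filter (fun B => x' ∈ B ∧ y' ∈ B) := by
      rw [← heq, Finset.mem_filter]; exact ⟨hB, hxB, hyB⟩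
    rw [Finset.mem_filter] at this
    exact hz B hB this.2.1 this.2.2
  · intro hz B hB hxB hyB
    have : B ∈ Bl.filter (fun B => x ∈ B ∧ y ∈ B) := by
      rw [heq, Finset.mem_filter]; exact ⟨hB, hxB, hyB⟩
    rw [Finset.mem_filter] at this
    exact hz B hB this.2.1 this.2.2

theorem HD.sun (h : HD Bl r k lam) (hlam : 3 ≤ lam) (hlam6 : lam ≤ 6)
    (hv : 2 * k < Fintype.card α + 2 ∨ (lam ≤ 5 ∧ 2 * k < Fintype.card α + 3))
    {x y : α} (hxy : x ≠ y) :
    (∀ B ∈ Bl, ∀ B' ∈ Bl, x ∈ B → y ∈ B → x ∈ B' → y ∈ B' → B ≠ B' → B ∩ B' = ln Bl x y) ∧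
    (∀ z, ∃ B ∈ Bl, x ∈ B ∧ y ∈ B ∧ z ∈ B) ∧ (ln Bl x y).card < k ∧
    Fintype.card α = (ln Bl x y).card + lam * (k - (ln Bl x y).card) := by
  obtain ⟨F, hFB, hint, hcov, hFk, hcard⟩ := h.allT hlam hlam6 hv hxy
  have hmT : ∀ B, B ∈ Bl.filter (fun B => x ∈ B ∧ y ∈ B) ↔ B ∈ Bl ∧ x ∈ B ∧ y ∈ B :=
    fun B => by rw [Finset.mem_filter]
  have hF : F = ln Bl x y := by
    apply Finset.Subset.antisymm
    · intro z hz
      rw [mem_ln]
      intro B hB hxB hyB
      exact hFB B ((hmT B).2 ⟨hB, hxB, hyB⟩) hz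
    · obtain ⟨B, hB, B', hB', hne⟩ := Finset.one_lt_card.1
        (show 1 < (Bl.filter (fun B => x ∈ B ∧ y ∈ B)).card by rw [h.hl x y hxy]; omega)
      rw [← hint B hB B' hB' hne]
      rw [hmT] at hB hB'
      exact Finset.subset_inter (ln_sub hB.1 hB.2.1 hB.2.2) (ln_sub hB'.1 hB'.2.1 hB'.2.2)
  refine ⟨?_, ?_, ?_, ?_⟩
  · intro B hB B' hB' h1 h2 h3 h4 hne
    rw [← hF]
    exact hint B ((hmT B).2 ⟨hB, h1, h2⟩) B' ((hmT B').2 ⟨hB', h3, h4⟩) hne
  · intro z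
    obtain ⟨B, hB, hz⟩ := hcov z
    rw [hmT] at hB
    exact ⟨B, hB.1, hB.2.1, hB.2.2, hz⟩
  · rw [← hF]; exact hFk
  · rw [← hF]; exact hcard

/-- The linear space structure inside a block. -/
theorem HD.lines (h : HD Bl r k lam) (hlam : 3 ≤ lam) (hlam5 : lam ≤ 6)
    (hv : 2 * k < Fintype.card α + 2 ∨ (lam ≤ 5 ∧ 2 * k < Fintype.card α + 3))
    (hk : 2 ≤ k) (hne : Bl.Nonempty) :
    ∃ l K : ℕ, 2 ≤ l ∧ l ≤ K ∧ K ≤ lam ∧ k - 1 = K * (l - 1) ∧ l < k ∧
      Fintype.card α = l + lam * (k - l) := by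
  obtain ⟨B, hB⟩ := hne
  have hBk := h.hk B hB
  obtain ⟨x, hx, y, hy, hxy⟩ := Finset.one_lt_card.1 (show 1 < B.card by omega)
  set l := (ln Bl x y).card with hl
  obtain ⟨_, _, hlk, hvl⟩ := h.sun hlam hlam5 hv hxy
  rw [← hl] at hlk hvl
  -- all lines have the same size
  have hall : ∀ a b : α, a ≠ b → (ln Bl a b).card = l := by
    intro a b hab
    obtain ⟨_, _, h1, h2⟩ := h.sun hlam hlam5 hv hab
    interval_cases lam <;> omega
  have hl2 : 2 ≤ l := by
    rw [hl, ← Finset.card_pair hxy]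
    apply Finset.card_le_card
    intro a ha
    rw [Finset.mem_insert, Finset.mem_singleton] at ha
    rcases ha with rfl | rfl
    · exact left_mem _ _
    · exact right_mem _ _
  set Im := (B.erase x).image (ln Bl x) with hIm
  refine ⟨l, Im.card, hl2, ?_, ?_, ?_, hlk, hvl⟩
  · -- `l ≤ K`
    obtain ⟨w, hwB, hw⟩ : ∃ w ∈ B, w ∉ ln Bl x y := by
      by_contra hcon
      push Not at hcon
      have := Finset.card_le_card (show B ⊆ ln Bl x y from hcon)
      omega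
    have hwy : w ≠ y := fun e => hw (e ▸ right_mem _ _)
    have hxn : x ∉ ln Bl w y := by
      intro hxm
      apply hw
      rw [h.ln_eq hwy hxy hxm (right_mem _ _)]
      exact left_mem _ _
    rw [← hall w y hwy]
    apply Finset.card_le_card_of_injOn (fun p => ln Bl x p)
    · intro p hp
      have hp' : p ∈ ln Bl w y := hp
      show ln Bl x p ∈ (Im : Set (Finset α))
      rw [Finset.mem_coe, hIm, Finset.mem_image]
      refine ⟨p, Finset.mem_erase.2 ⟨fun e => hxn (e ▸ hp'), ln_sub hB hwB hy hp'⟩, rfl⟩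
    · intro p hp q hq hpq
      have hp' : p ∈ ln Bl w y := hp
      have hq' : q ∈ ln Bl w y := hq
      simp only at hpq
      by_contra hne
      have hxp : x ≠ p := fun e => hxn (e ▸ hp')
      have e1 : ln Bl p q = ln Bl x p :=
        h.ln_eq hxp hne (right_mem _ _) (hpq ▸ right_mem _ _)
      have e2 : ln Bl p q = ln Bl w y := h.ln_eq hwy hne hp' hq'
      apply hxn
      rw [← e2, e1]
      exact left_mem _ _
  · -- `K ≤ lam`
    obtain ⟨z, hz⟩ : ∃ z, z ∉ B := by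
      by_contra hcon
      push Not at hcon
      exact h.pr B hB (Finset.eq_univ_iff_forall.2 hcon)
    have hxz : x ≠ z := fun e => hz (e ▸ hx)
    have hex : ∀ Λ : Finset α, ∃ C : Finset α, Λ ∈ Im → C ∈ Bl ∧ x ∈ C ∧ z ∈ C ∧ Λ ⊆ C := by
      intro Λ
      by_cases hΛ : Λ ∈ Im
      · have hΛ' := hΛ
        rw [hIm, Finset.mem_image] at hΛ
        obtain ⟨p, hp, rfl⟩ := hΛ
        rw [Finset.mem_erase] at hp
        obtain ⟨C, hC, h1, h2, h3⟩ := (h.sun hlam hlam5 hv (Ne.symm hp.1)).2.1 z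
        exact ⟨C, fun _ => ⟨hC, h1, h3, ln_sub hC h1 h2⟩⟩
      · exact ⟨∅, fun h => absurd h hΛ⟩
    choose f hf using hex
    rw [← h.hl x z hxz]
    apply Finset.card_le_card_of_injOn f
    · intro Λ hΛ
      obtain ⟨h1, h2, h3, _⟩ := hf Λ hΛ
      show f Λ ∈ (↑(Bl.filter (fun B => x ∈ B ∧ z ∈ B)) : Set (Finset α))
      rw [Finset.mem_coe, Finset.mem_filter]
      exact ⟨h1, h2, h3⟩
    · intro Λ hΛ Λ' hΛ' hff
      obtain ⟨h1, h2, h3, h4⟩ := hf Λ hΛ
      obtain ⟨h1', h2', h3', h4'⟩ := hf Λ' hΛ'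
      rw [Finset.mem_coe, hIm, Finset.mem_image] at hΛ hΛ'
      obtain ⟨p, hp, rfl⟩ := hΛ
      obtain ⟨q, hq, rfl⟩ := hΛ'
      rw [Finset.mem_erase] at hp hq
      have hBC : B ≠ f (ln Bl x p) := fun e => hz (e ▸ h3)
      have hpC : p ∈ f (ln Bl x p) := h4 (right_mem _ _)
      have hqC : q ∈ f (ln Bl x p) := by rw [hff]; exact h4' (right_mem _ _)
      have hI := (h.sun hlam hlam5 hv (Ne.symm hp.1)).1 B hB _ h1 hx hp.2 h2 hpC hBC
      have hq' : q ∈ ln Bl x p := by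
        rw [← hI]; exact Finset.mem_inter.2 ⟨hq.2, hqC⟩
      exact (h.ln_eq (Ne.symm hp.1) (Ne.symm hq.1) (left_mem _ _) hq').symm
  · -- counting
    have h1 := Finset.card_eq_sum_card_image (ln Bl x) (B.erase x)
    rw [Finset.card_erase_of_mem hx, hBk] at h1
    rw [h1]
    have hc : ∀ Λ ∈ (B.erase x).image (ln Bl x),
        ((B.erase x).filter (fun a => ln Bl x a = Λ)).card = l - 1 := by
      intro Λ hΛ
      rw [Finset.mem_image] at hΛ
      obtain ⟨p, hp, rfl⟩ := hΛ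
      rw [Finset.mem_erase] at hp
      have : (B.erase x).filter (fun a => ln Bl x a = ln Bl x p) = (ln Bl x p).erase x := by
        ext a
        rw [Finset.mem_filter, Finset.mem_erase, Finset.mem_erase]
        constructor
        · rintro ⟨⟨h1, _⟩, h3⟩
          exact ⟨h1, h3 ▸ right_mem _ _⟩
        · rintro ⟨h1, h2⟩
          exact ⟨⟨h1, ln_sub hB hx hp.2 h2⟩,
            h.ln_eq (Ne.symm hp.1) (Ne.symm h1) (left_mem _ _) h2⟩
      rw [this, Finset.card_erase_of_mem (left_mem _ _), hall x p (Ne.symm hp.1)]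
    rw [Finset.sum_congr rfl hc, Finset.sum_const, smul_eq_mul]

/-- The exceptional parameters `(12, 9, 8, 6, 5)` are impossible. -/
theorem HD.exceptional (h : HD Bl 8 6 5) (hv : Fintype.card α = 9) (hb : Bl.card = 12) : False := by
  have miss : ∀ u w : α, u ≠ w → (Bl.filter (fun B => u ∉ B ∧ w ∉ B)).card = 1 := by
    intro u w huw
    have e1 := Finset.card_filter_add_card_filter_not (s := Bl) (fun B => u ∈ B)
    have e2 := Finset.card_filter_add_card_filter_not (s := Bl.filter (fun B => w ∈ B))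
      (fun B => u ∈ B)
    have e3 := Finset.card_filter_add_card_filter_not (s := Bl.filter (fun B => u ∉ B))
      (fun B => w ∈ B)
    rw [Finset.filter_filter, Finset.filter_filter] at e2 e3
    rw [h.hr, hb] at e1
    rw [h.hr, h.hl w u huw.symm] at e2
    have e4 : (Bl.filter (fun B => w ∈ B ∧ u ∉ B)) = (Bl.filter (fun B => u ∉ B ∧ w ∈ B)) := by
      apply Finset.filter_congr
      intro B _
      exact and_comm
    rw [e4] at e2
    omega
  obtain ⟨z⟩ : Nonempty α := by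
    rw [← Fintype.card_pos_iff]; omega
  have hz : (Bl.filter (fun B => z ∉ B)).card = 4 := by
    have e1 := Finset.card_filter_add_card_filter_not (s := Bl) (fun B => z ∈ B)
    rw [h.hr, hb] at e1
    omega
  obtain ⟨B₁, hB₁, B₂, hB₂, hne⟩ := Finset.one_lt_card.1
    (show 1 < (Bl.filter (fun B => z ∉ B)).card by omega)
  rw [Finset.mem_filter] at hB₁ hB₂
  obtain ⟨C, hC, hzC, hsub⟩ := h.ex B₁ hB₁.1 B₂ hB₂.1 hne z hB₁.2 hB₂.2
  have two : ∀ B ∈ Bl, z ∉ B → (Cᶜ ∩ Bᶜ).card ≤ 1 := by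
    intro B hB hzB
    by_contra hcon
    push Not at hcon
    obtain ⟨u, hu, w, hw, huw⟩ := Finset.one_lt_card.1 hcon
    simp only [Finset.mem_inter, Finset.mem_compl] at hu hw
    have hBC : B ≠ C := fun e => hzB (e ▸ hzC)
    have hsub2 : ({B, C} : Finset (Finset α)) ⊆ Bl.filter (fun B => u ∉ B ∧ w ∉ B) := by
      intro D hD
      rw [Finset.mem_insert, Finset.mem_singleton] at hD
      rw [Finset.mem_filter]
      rcases hD with rfl | rfl
      · exact ⟨hB, hu.2, hw.2⟩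
      · exact ⟨hC, hu.1, hw.1⟩
    have := Finset.card_le_card hsub2
    rw [miss u w huw, Finset.card_pair hBC] at this
    omega
  have h1 := two B₁ hB₁.1 hB₁.2
  have h2 := two B₂ hB₂.1 hB₂.2
  have hCc : Cᶜ.card = 3 := by
    rw [Finset.card_compl, hv, h.hk C hC]
  have hcov : Cᶜ ⊆ (Cᶜ ∩ B₁ᶜ) ∪ (Cᶜ ∩ B₂ᶜ) := by
    intro a ha
    rw [Finset.mem_union, Finset.mem_inter, Finset.mem_inter]
    by_cases ha1 : a ∈ B₁
    · by_cases ha2 : a ∈ B₂
      · exact absurd (hsub (Finset.mem_inter.2 ⟨ha1, ha2⟩)) (Finset.mem_compl.1 ha)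
      · exact Or.inr ⟨ha, Finset.mem_compl.2 ha2⟩
    · exact Or.inl ⟨ha, Finset.mem_compl.2 ha1⟩
  have h3 := Finset.card_le_card hcov
  have h4 := Finset.card_union_le (Cᶜ ∩ B₁ᶜ) (Cᶜ ∩ B₂ᶜ)
  omega

end

end Pool.Agent.Helper119.MD
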